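import Mathlib
import Pool.Agent.Helper9.TY.ChkE

/-!
MP_8ee768_co, project TH-Y', stage B1a: rectangles of a part.

The entries `a, .., a + n - 1` of the list of `y` against the entries `b, .., b + k - 1` of the list of `x`
(`n = 0`: all from `a` on). `oneRB_sound`: an accepted rectangle; `RectB.consx`, `RectB.consy`: joining
rectangles; `partB_of_rect`: a part from the full rectangle.
-/

set_option autoImplicit false
set_option maxRecDepth 100000
set_option exponentiation.threshold 2000000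

namespace Pool.Agent.Helper8.TYB

open Finset
open Pool.Agent.Helper89.CV (OddCover ofMask)
open Pool.Agent.Helper97.CV
open Pool.Agent.Helper63.SIMD
open Pool.Agent.Helper79.CV
open Pool.Agent.Helper33.CV
open Pool.Agent.Helper82.TY (below Best Lay popR)
open Pool.Agent.Helper52.TY (Fam')
open Pool.Agent.Helper63.TY (Cb Acc)
open Pool.Agent.Helper38.TY
open Pool.Agent.Helper91.TY hiding Acc
open Pool.Agent.Helper49.TY
open Pool.Agent.Helper9.TY
open Pool.Agent.Helper41.TY (prodE pairE acc_prodE)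
open Pool.Agent.Helper16.TY (Good)

/-! ### ranges of a list of entries -/

/-- the list without its first `n` entries -/
noncomputable def dropE (n : ℕ) : List Ent → List Ent :=
  @Nat.rec (fun _ => List Ent → List Ent) (fun l => l)
    (fun _ ih l => ih (@List.rec Ent (fun _ => List Ent) [] (fun _ t _ => t) l)) n

/-- the first `n` entries -/
noncomputable def takeE (n : ℕ) : List Ent → List Ent :=
  @Nat.rec (fun _ => List Ent → List Ent) (fun _ => [])
    (fun _ ih l => @List.rec Ent (fun _ => List Ent) [] (fun x t _ => x :: ih t) l) n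

theorem dropE_eq (n : ℕ) (l : List Ent) : dropE n l = l.drop n := by
  induction n generalizing l with
  | zero => rfl
  | succ n ih =>
    cases l with
    | nil =>
      show dropE n [] = _
      rw [ih]
      simp
    | cons x l =>
      show dropE n l = _
      rw [ih, List.drop_succ_cons]

theorem takeE_eq (n : ℕ) (l : List Ent) : takeE n l = l.take n := by
  induction n generalizing l with
  | zero => rfl
  | succ n ih =>
    cases l with
    | nil => rfl
    | cons x l =>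
      show x :: takeE n l = _
      rw [ih, List.take_succ_cons]

/-- the entries `a, .., a + n - 1`, all from `a` on if `n = 0` -/
noncomputable def rng (a n : ℕ) (l : List Ent) : List Ent :=
  ite0 (Nat.beq n 0) (takeE n (dropE a l)) (dropE a l)

theorem rng_zero (a : ℕ) (l : List Ent) : rng a 0 l = l.drop a := dropE_eq a l

theorem rng_pos {a n : ℕ} (h : Nat.beq n 0 = false) (l : List Ent) :
    rng a n l = (l.drop a).take n := by
  unfold rng
  rw [h, ite0_false, takeE_eq, dropE_eq]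

theorem mem_of_mem_rng {a n : ℕ} {l : List Ent} {e : Ent} (h : e ∈ rng a n l) : e ∈ l := by
  cases hn : Nat.beq n 0 with
  | true =>
    rw [Nat.eq_of_beq_eq_true hn, rng_zero] at h
    exact List.mem_of_mem_drop h
  | false =>
    rw [rng_pos hn] at h
    exact List.mem_of_mem_drop (List.mem_of_mem_take h)

theorem rng_split {a n : ℕ} (hn : Nat.beq n 0 = false) {l : List Ent} {e : Ent}
    (h : e ∈ rng a 0 l) : e ∈ rng a n l ∨ e ∈ rng (a + n) 0 l := by
  rw [rng_pos hn, rng_zero]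
  rw [rng_zero, ← List.take_append_drop n (l.drop a), List.mem_append, List.drop_drop] at h
  exact h

/-! ### one pair of entries -/

/-- one pair of entries, for any context `HC` of the pairs `(y, x)` -/
theorem acc_oneG {cbK : ℕ → ℕ → ((ℕ → ℕ → Cb) → Bool) → Bool} {v C Z : ℕ}
    {rowy rowx : ℕ → List ℕ} {nly nlx : ℕ → ℕ} {D1 : Fam'}
    (hv : v >>> 495 < 4096) (hm : MaskOK v C Z)
    {HC HF : Fin 13 → Fin 13 → Fam' → Prop}
    (hmove : ∀ y x : Fin 13, y ≠ x → y < 12 → x < 12 →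
      (4095 ^^^ (v >>> 495)).testBit y.val = true → (4095 ^^^ (v >>> 495)).testBit x.val = false →
      ∀ B, HC y x B → HF y x (mapF (piE y x) B))
    (hcb : ∀ y x : Fin 13, y ≠ x → y < 12 → x < 12 →
      CbLawG cbK (mapF (piE y x) D1) (HF y x)
        (hmE (4095 ^^^ (v >>> 495)) y.val x.val)) {a b : Ent}
    (ha : a ∈ entsF rowy nly (Nat.land C 15) (C >>> 4))
    (hb : b ∈ entsF rowx nlx (Nat.land Z 15) (Z >>> 4)) :
    Acc (∀ (y x : Fin 13) (B : Fam'), HC y x B → Pool.Agent.Helper91.TY.Good a B y →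
        Pool.Agent.Helper91.TY.Good b B x → False)
      (pairE cbK (2 ^ 131072 - 1) (cub 12 D1) (4095 ^^^ (v >>> 495)) a b) := by
  have e4095 : (4095 : ℕ) = 2 ^ 12 - 1 := by norm_num
  have hbit : ∀ p : ℕ, p < 12 → ((4095 ^^^ (v >>> 495)).testBit p = true ↔
      (v >>> 495).testBit p = false) := by
    intro p hp
    rw [Nat.testBit_xor, e4095, Nat.testBit_two_pow_sub_one, decide_eq_true hp, Bool.true_xor]
    cases (v >>> 495).testBit p <;> simp
  have hlt : ∀ p : ℕ, (v >>> 495).testBit p = true → p < 12 := by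
    intro p hp
    by_contra hc
    rw [Nat.testBit_eq_false_of_lt (lt_of_lt_of_le hv (by
      rw [show (4096 : ℕ) = 2 ^ 12 by norm_num]
      exact Nat.pow_le_pow_right (by norm_num) (not_lt.1 hc)))] at hp
    exact Bool.false_ne_true hp
  have hlt' : ∀ p : ℕ, (4095 ^^^ (v >>> 495)).testBit p = true → p < 12 := by
    intro p hp
    rw [Nat.testBit_xor, e4095, Nat.testBit_two_pow_sub_one] at hp
    by_contra hc
    rw [decide_eq_false hc, Bool.false_xor] at hp
    exact hc (hlt p hp)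
  intro s c h5
  have ha1 := hm.1 _ (mem_mask ha)
  have hb1 := hm.2 _ (mem_mask hb)
  have ha2 := hlt' _ ha1
  have hb2 := hlt _ hb1
  obtain ⟨y0, hy0⟩ : ∃ y0 : Fin 13, a.p = y0.val := ⟨⟨a.p, by omega⟩, rfl⟩
  obtain ⟨x0, hx0⟩ : ∃ x0 : Fin 13, b.p = x0.val := ⟨⟨b.p, by omega⟩, rfl⟩
  rw [hy0] at ha1 ha2
  rw [hx0] at hb1 hb2
  have hne : y0 ≠ x0 := by
    intro h6
    have h8 := (hbit _ ha2).1 ha1
    rw [h6, hb1] at h8
    exact Bool.noConfusion h8
  have hy12 : y0 < 12 := ha2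
  have hx12 : x0 < 12 := hb2
  have hxf : (4095 ^^^ (v >>> 495)).testBit x0.val = false := by
    rw [← Bool.not_eq_true]
    intro h6
    have h7 := (hbit _ hb2).1 h6
    rw [hb1] at h7
    exact Bool.noConfusion h7
  obtain ⟨h8, h9⟩ := acc_pairE (a := a) (b := b) hy0 hx0 hne hy12 hx12
    (HC := HC y0 x0) (HF := HF y0 x0) (hmove _ _ hne hy12 hx12 ha1 hxf)
    (hcb _ _ hne hy12 hx12) s c h5
  refine ⟨fun y x B hB hya hxb => ?_, h9⟩
  have ey : y = y0 := Fin.ext (hya.pos.symm.trans hy0)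
  have ex : x = x0 := Fin.ext (hxb.pos.symm.trans hx0)
  subst ey
  subst ex
  exact h8 B hB hya hxb

/-! ### the program -/

/-- a rectangle of the centre: `C`, `Z` hold some of the records, entries `a, ..` and `b, ..` -/
noncomputable def cenER (rowy : ℕ → List ℕ) (nly : ℕ → ℕ) (rowx : ℕ → List ℕ) (nlx : ℕ → ℕ)
    (cbK : ℕ → ℕ → ((ℕ → ℕ → Cb) → Bool) → Bool) (a n b k v R C Z : ℕ) : Cb := fun s c =>
  frS C (Nat.sub (Nat.pow 2 131072) 1) fun M =>
    frS C R fun R => frS C (Nat.xor 4095 (Nat.shiftRight v 495)) fun m =>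
      frS C (Nat.land C 15) fun n1 => frS C (Nat.shiftRight C 4) fun C' =>
        frS C (Nat.land Z 15) fun n2 => frS C (Nat.shiftRight Z 4) fun Z' =>
          entsK rowy nly n1 C' fun _ l => entsK rowx nlx n2 Z' fun _ l2 =>
            prodE (pairE cbK M R m) (rng a n l) (rng b k l2) s c

theorem cenER_eq (rowy : ℕ → List ℕ) (nly : ℕ → ℕ) (rowx : ℕ → List ℕ) (nlx : ℕ → ℕ)
    (cbK : ℕ → ℕ → ((ℕ → ℕ → Cb) → Bool) → Bool) (a n b k v R C Z s : ℕ) (c : ℕ → Bool) :
    cenER rowy nly rowx nlx cbK a n b k v R C Z s c =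
      prodE (pairE cbK (2 ^ 131072 - 1) R (4095 ^^^ (v >>> 495)))
        (rng a n (entsF rowy nly (Nat.land C 15) (C >>> 4)))
        (rng b k (entsF rowx nlx (Nat.land Z 15) (Z >>> 4))) s c := by
  unfold cenER
  simp only [frS_eq]
  rw [entsK_eq, entsK_eq]
  rfl

/-- a rectangle of the centre `j` -/
noncomputable def oneRB (tv typy : ℕ → ℕ) (NT : ℕ) (rowy : ℕ → ℕ → List ℕ) (nly : ℕ → ℕ → ℕ)
    (j0 : ℕ → ℕ) (typx : ℕ → ℕ) (rowx : ℕ → ℕ → List ℕ) (nlx : ℕ → ℕ → ℕ)
    (rootR : ℕ → ℕ → ℕ) (cbK : ℕ → ℕ → ((ℕ → ℕ → Cb) → Bool) → Bool)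
    (j m w mC mZ C Z a n b k S : ℕ) : Bool :=
  preG tv typy NT typx j C Z fun v R =>
    (ite0 (mskOK v mC mZ C Z) false
      (frS C (rootR v R) fun R1 => frS C (j0 m) fun i => frS C (kindB m w) fun q =>
        cenER (rowy i) (nly i) (rowx q) (nlx q) cbK a n b k v R1 C Z S fun _ => true))

/-- the records of a part -/
noncomputable def headB (tv typy : ℕ → ℕ) (NT : ℕ) (typx : ℕ → ℕ) (j m w mC mZ C Z : ℕ) : Bool :=
  preG tv typy NT typx j C Z fun v _ => ite0 (preB v m w) false (mskOK v mC mZ C Z)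

/-! ### soundness -/

/-- the rectangle is dead -/
def RectB (rowy : ℕ → List ℕ) (nly : ℕ → ℕ) (rowx : ℕ → List ℕ) (nlx : ℕ → ℕ)
    (r C Z a n b k : ℕ) : Prop :=
  ∀ e ∈ rng a n (entsF rowy nly (Nat.land C 15) (C >>> 4)),
    ∀ g ∈ rng b k (entsF rowx nlx (Nat.land Z 15) (Z >>> 4)), ∀ (y x : Fin 13) (B : Fam'),
      (QB B 12 y x ∧ link B 12 = fam 12 4 r) → Pool.Agent.Helper91.TY.Good e B y →
        Pool.Agent.Helper91.TY.Good g B x → False

theorem RectB.consx {rowy : ℕ → List ℕ} {nly : ℕ → ℕ} {rowx : ℕ → List ℕ} {nlx : ℕ → ℕ}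
    {r C Z a n b k : ℕ} (hk : Nat.beq k 0 = false) (h : RectB rowy nly rowx nlx r C Z a n b k)
    (h' : RectB rowy nly rowx nlx r C Z a n (b + k) 0) :
    RectB rowy nly rowx nlx r C Z a n b 0 := by
  intro e he g hg
  rcases rng_split hk hg with h1 | h1
  · exact h e he g h1
  · exact h' e he g h1

theorem RectB.consy {rowy : ℕ → List ℕ} {nly : ℕ → ℕ} {rowx : ℕ → List ℕ} {nlx : ℕ → ℕ}
    {r C Z a n b k : ℕ} (hn : Nat.beq n 0 = false) (h : RectB rowy nly rowx nlx r C Z a n b k)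
    (h' : RectB rowy nly rowx nlx r C Z (a + n) 0 b k) :
    RectB rowy nly rowx nlx r C Z a 0 b k := by
  intro e he g hg
  rcases rng_split hn he with h1 | h1
  · exact h e h1 g hg
  · exact h' e h1 g hg

section B

variable {tv typy : ℕ → ℕ} {NT : ℕ} {rowy : ℕ → ℕ → List ℕ}
  {nly : ℕ → ℕ → ℕ} {j0 : ℕ → ℕ} {typx : ℕ → ℕ} {rowx : ℕ → ℕ → List ℕ} {nlx : ℕ → ℕ → ℕ}
  {rootR : ℕ → ℕ → ℕ} {cbK : ℕ → ℕ → ((ℕ → ℕ → Cb) → Bool) → Bool} {D1 : Fam' → Fam'}

/-- **one rectangle** -/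
theorem oneRB_sound (h : LawB tv typy NT rowy nly j0 typx rowx nlx rootR cbK D1)
    {j m w mC mZ C Z a n b k S : ℕ}
    (hb : oneRB tv typy NT rowy nly j0 typx rowx nlx rootR cbK j m w mC mZ C Z a n b k S =
      true) :
    RectB (rowy (j0 m)) (nly (j0 m)) (rowx (kindB m w)) (nlx (kindB m w)) (tv j % 2 ^ 495)
      C Z a n b k := by
  by_cases hocc : Occ (tv j % 2 ^ 495)
  swap
  · exact fun e _ g _ y x B hB _ _ => absurd ⟨B, hB.1.best.odd, hB.2⟩ hocc
  obtain ⟨h1, h2, h3⟩ := preG_split hb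
  obtain ⟨h7, h3⟩ := Pool.Agent.Helper91.TY.ite0_and h3
  obtain ⟨e1, e2, hmk⟩ := mskOK_sound h7
  simp only [frS_eq] at h3
  rw [h.root _ (h.good j) hocc, cenER_eq] at h3
  have hv := good_shr (h.good j)
  have hfm := maskLaw_of_good (h.good j)
  have h8 : Acc (∀ e ∈ rng a n (entsF (rowy (j0 m)) (nly (j0 m)) (Nat.land C 15) (C >>> 4)),
      ∀ g ∈ rng b k (entsF (rowx (kindB m w)) (nlx (kindB m w)) (Nat.land Z 15) (Z >>> 4)),
      ∀ (y x : Fin 13) (B : Fam'),
      (QB B 12 y x ∧ link B 12 = fam 12 4 (tv j % 2 ^ 495)) →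
        Pool.Agent.Helper91.TY.Good e B y → Pool.Agent.Helper91.TY.Good g B x → False)
      (prodE (pairE cbK (2 ^ 131072 - 1) (cub 12 (D1 (fam 12 4 (tv j % 2 ^ 495))))
          (4095 ^^^ (tv j >>> 495)))
        (rng a n (entsF (rowy (j0 m)) (nly (j0 m)) (Nat.land C 15) (C >>> 4)))
        (rng b k (entsF (rowx (kindB m w)) (nlx (kindB m w)) (Nat.land Z 15) (Z >>> 4)))) := by
    refine acc_prodE fun e he g hg => ?_
    refine acc_oneG (HC := fun y x B => QB B 12 y x ∧ link B 12 = fam 12 4 (tv j % 2 ^ 495))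
      (HF := fun y x => HBL (mapF (piE y x) (fam 12 4 (tv j % 2 ^ 495)))
        (hmE (4095 ^^^ (tv j >>> 495)) y.val x.val)) hv hmk ?_ (h.cb _ (h.good j))
      (mem_of_mem_rng he) (mem_of_mem_rng hg)
    intro y x hyx hy hx hmy hmx B hB
    exact HBL.frame hyx hy hx hB.1 hB.2 fun t ht hb =>
      mask_nbr (hfm B hB.1.best.odd hB.2) hyx hy hx hmy hmx t ht hb
  exact (h8 S _ h3).1

/-- **a part from the full rectangle** -/
theorem partB_of_rect (h : LawB tv typy NT rowy nly j0 typx rowx nlx rootR cbK D1)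
    {j m w mC mZ C Z : ℕ} (hm : m = 2 ∨ m = 4)
    (hb : headB tv typy NT typx j m w mC mZ C Z = true)
    (hR : RectB (rowy (j0 m)) (nly (j0 m)) (rowx (kindB m w)) (nlx (kindB m w))
      (tv j % 2 ^ 495) C Z 0 0 0 0) : PartP (PDB (tv j % 2 ^ 495)) mC mZ := by
  obtain ⟨h1, h2, h3⟩ := preG_split hb
  obtain ⟨h4, h3⟩ := Pool.Agent.Helper91.TY.ite0_and h3
  obtain ⟨hmc, h6⟩ := preB_sound h4
  obtain ⟨e1, e2, hmk⟩ := mskOK_sound h3
  have hred := red_iff h6
  rw [← e1, ← e2]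
  intro y x hym hxm B hQ hr
  have hB := hQ.best.odd
  have hc : MM B 12 = m := by
    have h4 := two_mul_card_link hB 12
    rw [hr] at h4
    omega
  obtain ⟨a, ha, haG⟩ := ents_hasG (inv_size_ge (114 + m)) (rowsG_of_21 (h.rows m hm))
    (recsAll_of_recsChk h1) hQ.cy.symm hym
    (B := B) ⟨hB, hr, hQ.hy, by
      show 114 + m ≤ 2 * (link B y).card
      rw [two_mul_card_link hB y, ← hc]
      have := hQ.hcy
      omega⟩ (by rw [hQ.edge])
  obtain ⟨b, hb, hbG⟩ := ents_hasG (inv_PB m (Nat.beq w 0))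
    (rowsG_of_Z (kind_rows h.rows0 h.rows1 h.rows2 hm)) (recsAll_of_zChk h2) hQ.cz.symm hxm
    (B := B) ⟨hB, hr, hQ.hz, hQ.pb hc fun h4 => by rw [hr]; exact hred h4⟩ trivial
  have e0 : ∀ l : List Ent, rng 0 0 l = l := fun l => by rw [rng_zero, List.drop_zero]
  exact hR a (by rw [e0]; exact ha) b (by rw [e0]; exact hb) y x B ⟨hQ, hr⟩ haG hbG

end B

end Pool.Agent.Helper8.TYB
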