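import Pool.Agent.Helper60.TY.InstE
import Pool.Agent.Helper8.TYB.Rect

/-!
MP_8ee768_co, project TH-Y', stage B1a: the names of the checks used by the printed modules and the
collecting theorems (as `Helper60/TY/InstE.lean` for stage E).

* `oneBc j m w C Z S`: the centre `j` of excess `m`, `w` = 0 or a witness that it is not reduced;
  `onePBc j m w mC mZ C Z S`: a part of it; `oneRBc .. a n b k S`: a rectangle of a part;
* `SB a b`: if the tables are right (`HypE`), the centres `a ≤ j < b` are done.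
-/

set_option autoImplicit false
set_option maxRecDepth 100000
set_option exponentiation.threshold 2000000

namespace Pool.Agent.Helper8.TYB

open Pool.Agent.Helper97.CV
open Pool.Agent.Helper91.TY hiding Acc
open Pool.Agent.Helper49.TY
open Pool.Agent.Helper9.TY
open Pool.Agent.Helper16.TY (reps Tab.tv Good)
open Pool.Agent.Helper16.TY.Tab (tv_good)
open Pool.Agent.Helper7.TB (typ nl clr)
open Pool.Agent.Helper52.TB (rowX)
open Pool.Agent.Helper52.TY (LayC)
open Pool.Agent.Helper60.TY (HypE)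
open Pool.Agent.Helper82.TY (typz rowz nlz rowsZ_zero rowsZ_one rowsZ_two)

/-- two pieces of a stream -/
def J (a b : ℕ) : ℕ := Nat.lor a (Nat.shiftLeft b 4000)

/-- the check of the centre `j` -/
noncomputable def oneBc (j m w C Z S : ℕ) : Bool :=
  oneB Tab.tv typ 5074 rowyE nlyE j0B typz rowz nlz rootW cbB j m w C Z S

/-- the check of a part of the centre `j` -/
noncomputable def onePBc (j m w mC mZ C Z S : ℕ) : Bool :=
  onePB Tab.tv typ 5074 rowyE nlyE j0B typz rowz nlz rootW cbB j m w mC mZ C Z S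

/-- the check of a rectangle of a part -/
noncomputable def oneRBc (j m w mC mZ C Z a n b k S : ℕ) : Bool :=
  oneRB Tab.tv typ 5074 rowyE nlyE j0B typz rowz nlz rootW cbB j m w mC mZ C Z a n b k S

/-- the check of the records of a part -/
noncomputable def headBc (j m w mC mZ C Z : ℕ) : Bool :=
  headB Tab.tv typ 5074 typz j m w mC mZ C Z

/-- the laws of the instance -/
theorem lawB (h : HypE) :
    LawB Tab.tv typ 5074 rowyE nlyE j0B typz rowz nlz rootW cbB LayC where
  good := tv_good
  rows := fun m hm => rowsB_of h.rows m hm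
  rows0 := rowsZ_zero h.a h.b
  rows1 := rowsZ_one h.a h.b
  rows2 := rowsZ_two h.a h.b
  root := fun _ hv ho => rootW_eq hv ho
  cb := fun _ _ _ _ hyx hy hx => cbB_law _ hyx hy hx _

/-- the centres `a ≤ j < b` are done -/
def SB (a b : ℕ) : Prop := HypE → SegB Tab.tv a b

/-- the excess is 2 or 4 -/
def mOK (m : ℕ) : Bool := Nat.beq m 2 || Nat.beq m 4

theorem mOK_or {m : ℕ} (h : mOK m = true) : m = 2 ∨ m = 4 := by
  rcases Bool.or_eq_true_iff.1 h with h1 | h1
  · exact Or.inl (Nat.eq_of_beq_eq_true h1)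
  · exact Or.inr (Nat.eq_of_beq_eq_true h1)

/-- one centre; `k` is the next number -/
theorem SB.one {j m w C Z S : ℕ} (k : ℕ) (h : oneBc j m w C Z S = true)
    (hj : (Nat.beq (Nat.succ j) k && mOK m) = true) : SB j k := by
  intro H
  obtain ⟨h1, h2⟩ := Bool.and_eq_true_iff.1 hj
  obtain rfl : Nat.succ j = k := Nat.eq_of_beq_eq_true h1
  exact SegB.one (oneB_sound (lawB H) (mOK_or h2) h)

theorem SB.app {a b c : ℕ} (h : SB a b) (h' : SB b c) : SB a c := fun H => (h H).app (h' H)

/-- the parts of the centre `j` with the masks of `ps` are dead -/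
def APB (j : ℕ) (ps : List (ℕ × ℕ)) : Prop :=
  HypE → AllP (PDB (Tab.tv j % 2 ^ 495)) ps

theorem APB.nil (j : ℕ) : APB j [] := fun _ => trivial

theorem APB.cons {j m w mC mZ C Z S : ℕ} {ps : List (ℕ × ℕ)}
    (h : onePBc j m w mC mZ C Z S = true) (hm : mOK m = true) (h' : APB j ps) :
    APB j ((mC, mZ) :: ps) := fun H =>
  ⟨onePB_sound (lawB H) (mOK_or hm) h, h' H⟩

/-- one centre from its parts -/
theorem SB.parts {j : ℕ} {ps : List (ℕ × ℕ)} (k : ℕ) (hc : covJ Tab.tv j ps = true)
    (hj : Nat.beq (Nat.succ j) k = true) (h : APB j ps) : SB j k := by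
  intro H
  obtain rfl : Nat.succ j = k := Nat.eq_of_beq_eq_true hj
  exact segB_of_parts (tv_good j) hc (h H)

/-! ### rectangles -/

/-- the rectangle is dead -/
def RB (j m w C Z a n b k : ℕ) : Prop :=
  HypE → RectB (rowyE (j0B m)) (nlyE (j0B m)) (rowz (kindB m w)) (nlz (kindB m w))
    (Tab.tv j % 2 ^ 495) C Z a n b k

theorem RB.one {j m w mC mZ C Z a n b k S : ℕ} (h : oneRBc j m w mC mZ C Z a n b k S = true) :
    RB j m w C Z a n b k := fun H => oneRB_sound (lawB H) h

theorem RB.consx {j m w C Z a n b k b' : ℕ} (h : RB j m w C Z a n b k)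
    (hk : (Nat.beq b' (Nat.add b k) && !Nat.beq k 0) = true) (h' : RB j m w C Z a n b' 0) :
    RB j m w C Z a n b 0 := by
  intro H
  obtain ⟨h1, h2⟩ := Bool.and_eq_true_iff.1 hk
  obtain rfl : b' = b + k := Nat.eq_of_beq_eq_true h1
  exact (h H).consx (by rw [Bool.not_eq_true'] at h2; exact h2) (h' H)

theorem RB.consy {j m w C Z a n b k a' : ℕ} (h : RB j m w C Z a n b k)
    (hk : (Nat.beq a' (Nat.add a n) && !Nat.beq n 0) = true) (h' : RB j m w C Z a' 0 b k) :
    RB j m w C Z a 0 b k := by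
  intro H
  obtain ⟨h1, h2⟩ := Bool.and_eq_true_iff.1 hk
  obtain rfl : a' = a + n := Nat.eq_of_beq_eq_true h1
  exact (h H).consy (by rw [Bool.not_eq_true'] at h2; exact h2) (h' H)

/-- a part from its rectangles -/
theorem APB.rect {j m w mC mZ C Z : ℕ} {ps : List (ℕ × ℕ)}
    (hb : headBc j m w mC mZ C Z = true) (hm : mOK m = true) (hR : RB j m w C Z 0 0 0 0)
    (h' : APB j ps) : APB j ((mC, mZ) :: ps) := fun H =>
  ⟨partB_of_rect (lawB H) (mOK_or hm) hb (hR H), h' H⟩

end Pool.Agent.Helper8.TYB
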